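import Pool.Agent.H10.BL.Stmts

/-!
# BL: CHE, the choice lemma with slack
-/

set_option autoImplicit false

namespace Pool.BL

open Finset Pool.Agent.H98.ABCR Pool.SHA

namespace CHE71

theorem phi_mul (c x g : ℝ) (hc : 0 ≤ c) : Phi (c * x) (c * g) = c * Phi x g := by
  unfold Phi
  rw [mul_max_of_nonneg _ _ hc, mul_max_of_nonneg _ _ hc]
  congr 2 <;> ring

theorem phi_add (x g y : ℝ) (hy : 0 ≤ y) : Phi x g ≤ Phi x (g + y) + 3 * y / 4 := by
  unfold Phi
  refine max_le ?_ (max_le ?_ ?_)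
  · have := le_max_left x (max (3 * x / 2 - (g + y) / 4) (2 * x - 3 * (g + y) / 4))
    linarith
  · have h1 := le_max_right x (max (3 * x / 2 - (g + y) / 4) (2 * x - 3 * (g + y) / 4))
    have h2 := le_max_left (3 * x / 2 - (g + y) / 4) (2 * x - 3 * (g + y) / 4)
    linarith
  · have h1 := le_max_right x (max (3 * x / 2 - (g + y) / 4) (2 * x - 3 * (g + y) / 4))
    have h2 := le_max_right (3 * x / 2 - (g + y) / 4) (2 * x - 3 * (g + y) / 4)
    linarith

end CHE71

open CHE71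

theorem che_thm (h1 : S_CHO) : S_CHE := by
  intro J p t a b c η hJ hab hac hbc hη hη' hp ht hsum hga
  obtain ⟨r, hr⟩ : ∃ r : ℝ, r = (1 + η)⁻¹ := ⟨_, rfl⟩
  have h1η : (0 : ℝ) < 1 + η := by linarith
  have hr0 : 0 ≤ r := by rw [hr]; positivity
  have hr1 : (1 + η) * r = 1 := by rw [hr]; exact mul_inv_cancel₀ h1η.ne'
  have key := h1 J (fun l e => r * p l e) (fun l => r * t l + 2 * η) a b c hJ hab hac hbc
    (fun l e => mul_nonneg hr0 (hp l e))
    (fun l => add_nonneg (mul_nonneg hr0 (ht l)) (by linarith)) ?_ ?_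
  · have hS : ∀ (K : Finset ℕ) (l : Fin 3), ∑ e ∈ K, r * p l e = r * ∑ e ∈ K, p l e :=
      fun K l => (Finset.mul_sum _ _ _).symm
    have hG : ∀ (K : Finset ℕ) (l : Fin 3), ∑ e ∈ K, (e : ℝ) * (r * p l e) =
        r * ∑ e ∈ K, (e : ℝ) * p l e := by
      intro K l
      rw [Finset.mul_sum]
      exact Finset.sum_congr rfl fun e _ => by ring
    have hmul : ∀ A : ℝ, r * A ≤ 3 / 5 → A ≤ 3 / 5 + 3 / 5 * η := by
      intro A hA
      have h2 := mul_le_mul_of_nonneg_left hA h1η.le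
      rw [← mul_assoc, hr1, one_mul] at h2
      linarith
    rcases key with ⟨j, k, hjk, hle⟩ | ⟨e, f, he, hf, hle⟩ | ⟨i, j, k, K, hia, hij, hik, hjk, hK, hle⟩
    · left
      refine ⟨j, k, hjk, ?_⟩
      simp only [hS] at hle
      have := hmul _ (by rw [mul_add]; exact hle)
      linarith
    · right; left
      refine ⟨e, f, he, hf, ?_⟩
      simp only [hS] at hle
      have := hmul ((∑ e ∈ Icc 1 J, p a e) / 2 +
        (∑ e ∈ Icc 1 J, p b e - p b e / 2) + (∑ e ∈ Icc 1 J, p c e - p c f / 2)) (by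
          refine le_trans (le_of_eq ?_) hle
          ring)
      linarith
    · right; right
      refine ⟨i, j, k, K, hia, hij, hik, hjk, hK, ?_⟩
      simp only [hS, hG] at hle
      obtain ⟨y, hy⟩ : ∃ y : ℝ, y = 2 * η * (1 + η) := ⟨_, rfl⟩
      have hy0 : 0 ≤ y := by rw [hy]; positivity
      have hg : r * t i + 2 * η + r * ∑ e ∈ K, (e : ℝ) * p i e =
          r * ((t i + ∑ e ∈ K, (e : ℝ) * p i e) + y) := by
        have h3 : r * y = 2 * η := by
          rw [hy]
          calc r * (2 * η * (1 + η)) = 2 * η * ((1 + η) * r) := by ring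
            _ = 2 * η := by rw [hr1, mul_one]
        rw [mul_add, h3]
        ring
      rw [hg, phi_mul _ _ _ hr0, phi_mul _ _ _ hr0] at hle
      have h4 := hmul (∑ e ∈ K, p i e + (Phi (∑ e ∈ Icc 1 J, p j e)
        ((t i + ∑ e ∈ K, (e : ℝ) * p i e) + y) + Phi (∑ e ∈ Icc 1 J, p k e)
        ((t i + ∑ e ∈ K, (e : ℝ) * p i e) + y)) / 2) (by
          refine le_trans (le_of_eq ?_) hle
          ring)
      have h5 := phi_add (∑ e ∈ Icc 1 J, p j e) (t i + ∑ e ∈ K, (e : ℝ) * p i e) y hy0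
      have h6 := phi_add (∑ e ∈ Icc 1 J, p k e) (t i + ∑ e ∈ K, (e : ℝ) * p i e) y hy0
      have h7 : y ≤ 2 * η * (11 / 10) := by
        rw [hy]
        exact mul_le_mul_of_nonneg_left (by linarith) (by linarith)
      linarith
  · calc ∑ l, ∑ e ∈ Icc 1 J, r * p l e = r * ∑ l, ∑ e ∈ Icc 1 J, p l e := by
          rw [Finset.mul_sum]
          exact Finset.sum_congr rfl fun l _ => (Finset.mul_sum _ _ _).symm
      _ ≤ r * (1 + η) := mul_le_mul_of_nonneg_left hsum hr0
      _ = 1 := by rw [mul_comm]; exact hr1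
  · intro i hi
    have h2 := hga i hi
    have h3 : ∑ e ∈ Icc 1 J, (e : ℝ) * (r * p i e) = r * ∑ e ∈ Icc 1 J, (e : ℝ) * p i e := by
      rw [Finset.mul_sum]
      exact Finset.sum_congr rfl fun e _ => by ring
    show 1 ≤ r * t i + 2 * η + ∑ e ∈ Icc 1 J, (e : ℝ) * (r * p i e)
    rw [h3]
    have h4 : r * (1 - η) ≤ r * (t i + ∑ e ∈ Icc 1 J, (e : ℝ) * p i e) :=
      mul_le_mul_of_nonneg_left h2 hr0
    have h5 : 1 - 2 * η ≤ r * (1 - η) := by
      have h6 : (1 - 2 * η) * (1 + η) ≤ 1 - η := by nlinarith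
      calc 1 - 2 * η = (1 - 2 * η) * (1 + η) * r := by rw [mul_assoc, hr1, mul_one]
        _ ≤ (1 - η) * r := mul_le_mul_of_nonneg_right h6 hr0
        _ = r * (1 - η) := mul_comm _ _
    linarith

end Pool.BL
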