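import Pool.Agent.H10.BL.Stmts
import Pool.Agent.H71.RIC.RCH

/-!
# BL: CTL, congruences modulo a divisor of one coordinate
-/

set_option autoImplicit false

namespace Pool.BL

open Finset Pool.Agent.H98.ABCR Pool.SHA Pool.RIC.H71R

namespace CTL71

theorem size {κ X : ℝ} (hX : 1 ≤ X) {v : ℕ × ℕ} (T : IsTri v) (H : hh v ≤ κ * Real.log X)
    (s : Fin 3) : (coord v s : ℝ) ≤ X ^ κ := by
  have hX0 : (0 : ℝ) < X := by linarith
  have h1 : (0 : ℝ) < ((v.1 + v.2 : ℕ) : ℝ) := by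
    have := T.1
    exact_mod_cast Nat.add_pos_left this _
  have h2 : ((v.1 + v.2 : ℕ) : ℝ) ≤ X ^ κ := by
    rw [← Real.exp_log h1, Real.rpow_def_of_pos hX0, mul_comm]
    exact Real.exp_le_exp.2 H
  have h3 : (coord v s : ℝ) ≤ ((v.1 + v.2 : ℕ) : ℝ) := by exact_mod_cast coord_le v s
  linarith

/-- one modulus -/
theorem fibq {J S : ℕ} {κ ε C : ℝ} (hC : 1 ≤ C)
    (hE : ∀ (X τ g V : ℝ) (q : ℕ) (P : Finset ℕ) (p : ℕ → ℝ), 1 ≤ X → 0 ≤ τ → 0 ≤ g →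
      (∀ e, 0 ≤ p e ∧ p e ≤ 2) → VB J S p g V → X ^ g ≤ q → (q : ℝ) ≤ X ^ κ →
      (∀ n ∈ P, 0 < n ∧ n.Coprime q ∧ (n : ℝ) ≤ X ^ κ ∧ Prof J X τ p n) →
      (((P ×ˢ P).filter (fun z => z.1 ≡ z.2 [MOD q])).card : ℝ) ≤
        C * X ^ (ε + 2 * τ + 2 * (∑ e ∈ Icc 1 J, p e) - V))
    {X τ g V W : ℝ} (hX : 1 ≤ X) (hτ : 0 ≤ τ) (hg : 0 ≤ g) (i : Fin 3) (q : ℕ)
    (p : Fin 3 → ℕ → ℝ) (hp : ∀ l e, 0 ≤ p l e ∧ p l e ≤ 2) (hV : VB J S (p (i + 1)) g V)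
    (hW : VB J S (p (i + 2)) g W) (hq : 0 < q) (hq1 : X ^ g ≤ q) (hq2 : (q : ℝ) ≤ X ^ κ)
    (F : Finset (ℕ × ℕ)) (hF : ∀ v ∈ F, IsTri v ∧ hh v ≤ κ * Real.log X ∧
      (∀ l, Prof J X τ (p l) (coord v l)) ∧ q ∣ coord v i) :
    (F.card : ℝ) ≤ C * X ^ (ε + 2 * τ + (∑ e ∈ Icc 1 J, p (i + 1) e - V / 2) +
      (∑ e ∈ Icc 1 J, p (i + 2) e - W / 2)) := by
  classical
  have hX0 : (0 : ℝ) < X := by linarith
  have : NeZero q := ⟨hq.ne'⟩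
  obtain ⟨σ, hσ, hdv, hinj⟩ := sgn i
  set A : Finset ℕ := F.image (fun v => coord v (i + 1)) with hA
  set B : Finset ℕ := F.image (fun v => coord v (i + 2)) with hB
  set F' : Finset (ℕ × ℕ) := F.image (fun v => (coord v (i + 1), coord v (i + 2))) with hF'
  have hcard : F'.card = F.card := by
    refine Finset.card_image_of_injOn fun v _ v' _ h => ?_
    simp only [Prod.mk.injEq] at h
    exact hinj v v' h.1 h.2
  have hcs := cs q σ hσ A B F' (by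
    intro w hw
    obtain ⟨v, hv, rfl⟩ := Finset.mem_image.mp hw
    refine ⟨Finset.mem_image.mpr ⟨v, hv, rfl⟩, Finset.mem_image.mpr ⟨v, hv, rfl⟩, ?_⟩
    have h1 : (q : ℤ) ∣ (coord v i : ℤ) := by exact_mod_cast (hF v hv).2.2.2
    exact h1.trans (hdv v))
  rw [hcard] at hcs
  have eA := hE X τ g V q A (p (i + 1)) hX hτ hg (hp _) hV hq1 hq2 (by
    intro n hn
    obtain ⟨v, hv, rfl⟩ := Finset.mem_image.mp hn
    obtain ⟨T, H, P, D⟩ := hF v hv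
    exact ⟨coord_pos T _, (cop T i).1.coprime_dvd_right D, size hX T H _, P _⟩)
  have eB := hE X τ g W q B (p (i + 2)) hX hτ hg (hp _) hW hq1 hq2 (by
    intro n hn
    obtain ⟨v, hv, rfl⟩ := Finset.mem_image.mp hn
    obtain ⟨T, H, P, D⟩ := hF v hv
    exact ⟨coord_pos T _, (cop T i).2.coprime_dvd_right D, size hX T H _, P _⟩)
  have h5 : (F.card : ℝ) ^ 2 ≤ (C * X ^ (ε + 2 * τ + (∑ e ∈ Icc 1 J, p (i + 1) e - V / 2) +
      (∑ e ∈ Icc 1 J, p (i + 2) e - W / 2))) ^ 2 := by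
    refine hcs.trans ((mul_le_mul eA eB (Nat.cast_nonneg _) (by positivity)).trans (le_of_eq ?_))
    rw [mul_pow, ← Real.rpow_natCast (X ^ _) 2, ← Real.rpow_mul hX0.le]
    rw [mul_mul_mul_comm, ← Real.rpow_add hX0, sq]
    congr 2
    push_cast
    ring
  exact (pow_le_pow_iff_left₀ (Nat.cast_nonneg _) (by positivity) (by norm_num)).1 h5

theorem core (h1 : S_ENQ) (h2 : S_LAY) (h3 : Pool.RIC.S_CNT) (J S : ℕ) (κ ε : ℝ) (hκ : 1 ≤ κ)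
    (hε : 0 < ε) : ∃ C : ℝ, 1 ≤ C ∧
    ∀ (X τ g V W : ℝ) (F : Finset (ℕ × ℕ)) (i : Fin 3) (K : Finset ℕ) (p : Fin 3 → ℕ → ℝ),
    1 ≤ X → 0 ≤ τ → 0 ≤ g → K ⊆ Icc 1 J →
    (∀ l e, 0 ≤ p l e ∧ p l e ≤ 2) → VB J S (p (i + 1)) g V → VB J S (p (i + 2)) g W →
    (∀ v ∈ F, IsTri v ∧ hh v ≤ κ * Real.log X ∧ (∀ l, Prof J X τ (p l) (coord v l)) ∧
      X ^ g ≤ (kp J K (coord v i) : ℝ)) →
    (F.card : ℝ) ≤ C * X ^ (ε + 4 * τ + ∑ e ∈ K, p i e +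
      (∑ e ∈ Icc 1 J, p (i + 1) e - V / 2) + (∑ e ∈ Icc 1 J, p (i + 2) e - W / 2)) := by
  classical
  obtain ⟨C1, hC1, hT⟩ := h3 κ (ε / 4) (by linarith) (by linarith)
  obtain ⟨C2, hC2, hE⟩ := h1 J S κ (ε / 4) hκ (by linarith)
  refine ⟨C1 * C2, one_le_mul_of_one_le_of_one_le hC1 hC2, ?_⟩
  intro X τ g V W F i K p hX hτ hg hK hp hV hW hF
  have hX0 : (0 : ℝ) < X := by linarith
  set T : Finset ℕ := F.image (fun v => kp J K (coord v i)) with hTdef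
  have hkp : ∀ v ∈ F, kp J K (coord v i) ∣ coord v i ∧ 0 < kp J K (coord v i) ∧
      (kp J K (coord v i) : ℝ) ≤ X ^ κ ∧
      (rad (kp J K (coord v i)) : ℝ) ≤ X ^ (τ + ∑ e ∈ K, p i e) := by
    intro v hv
    obtain ⟨T1, H, P, -⟩ := hF v hv
    have hpos := coord_pos T1 i
    obtain ⟨-, -, -, hd, -⟩ := h2 J (coord v i) hpos
    obtain ⟨hd1, hd2⟩ := hd K hK
    have hle : kp J K (coord v i) ≤ coord v i := Nat.le_of_dvd hpos hd1
    refine ⟨hd1, Nat.pos_of_dvd_of_pos hd1 hpos, ?_, ?_⟩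
    · exact le_trans (by exact_mod_cast hle) (size hX T1 H i)
    · rw [hd2, Nat.cast_mul, Nat.cast_prod, Real.rpow_add hX0, Real.rpow_sum_of_pos hX0]
      refine mul_le_mul (P i).1 ?_ (Finset.prod_nonneg fun e _ => Nat.cast_nonneg _) (by positivity)
      exact Finset.prod_le_prod (fun e _ => Nat.cast_nonneg _) fun e he => (P i).2 e (hK he)
  have hTc : (T.card : ℝ) ≤ C1 * X ^ (ε / 4) * X ^ (τ + ∑ e ∈ K, p i e) := by
    refine hT X (X ^ (τ + ∑ e ∈ K, p i e)) T hX (Real.one_le_rpow hX ?_) ?_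
    · exact add_nonneg hτ (Finset.sum_nonneg fun e _ => (hp i e).1)
    intro n hn
    obtain ⟨v, hv, rfl⟩ := Finset.mem_image.mp hn
    exact ⟨(hkp v hv).2.1, (hkp v hv).2.2.1, (hkp v hv).2.2.2⟩
  have hmaps : Set.MapsTo (fun v => kp J K (coord v i)) (F : Set (ℕ × ℕ)) T := by
    intro v hv
    exact Finset.mem_coe.2 (Finset.mem_image_of_mem _ (Finset.mem_coe.1 hv))
  set b : ℝ := C2 * X ^ (ε / 4 + 2 * τ + (∑ e ∈ Icc 1 J, p (i + 1) e - V / 2) +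
      (∑ e ∈ Icc 1 J, p (i + 2) e - W / 2)) with hb
  have hb0 : 0 ≤ b := by rw [hb]; positivity
  have hfib : ∀ q ∈ T, (((F.filter (fun v => kp J K (coord v i) = q)).card : ℕ) : ℝ) ≤ b := by
    intro q hq
    obtain ⟨v0, hv0, rfl⟩ := Finset.mem_image.mp hq
    refine fibq hC2 hE hX hτ hg i _ p hp hV hW (hkp v0 hv0).2.1 (hF v0 hv0).2.2.2
      (hkp v0 hv0).2.2.1 _ fun v hv => ?_
    rw [Finset.mem_filter] at hv
    obtain ⟨T1, H, P, -⟩ := hF v hv.1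
    refine ⟨T1, H, P, ?_⟩
    rw [← hv.2]
    exact (hkp v hv.1).1
  have hsum : (F.card : ℝ) ≤ T.card * b := by
    rw [Finset.card_eq_sum_card_fiberwise hmaps]
    push_cast
    calc ∑ q ∈ T, ((F.filter (fun v => kp J K (coord v i) = q)).card : ℝ)
        ≤ ∑ _q ∈ T, b := Finset.sum_le_sum hfib
      _ = _ := by rw [Finset.sum_const, nsmul_eq_mul]
  refine hsum.trans ((mul_le_mul_of_nonneg_right hTc hb0).trans ?_)
  have e1 : C1 * X ^ (ε / 4) * X ^ (τ + ∑ e ∈ K, p i e) * b =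
      C1 * C2 * X ^ (ε / 2 + 3 * τ + ∑ e ∈ K, p i e +
      (∑ e ∈ Icc 1 J, p (i + 1) e - V / 2) + (∑ e ∈ Icc 1 J, p (i + 2) e - W / 2)) := by
    have key : ∀ a b c : ℝ, C1 * X ^ a * X ^ b * (C2 * X ^ c) = C1 * C2 * X ^ (a + b + c) := by
      intro a b c
      rw [Real.rpow_add hX0, Real.rpow_add hX0]
      ring
    rw [hb, key]
    congr 2
    ring
  rw [e1]
  refine mul_le_mul_of_nonneg_left (Real.rpow_le_rpow_of_exponent_le hX ?_) (by positivity)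
  linarith

end CTL71

open CTL71

theorem ctl_thm (h1 : S_ENQ) (h2 : S_LAY) (h3 : Pool.RIC.S_CNT) : S_CTL := by
  intro J S κ ε hκ hε
  obtain ⟨C, hC, hc⟩ := core h1 h2 h3 J S κ ε hκ hε
  refine ⟨C, hC, ?_⟩
  intro X τ g V W F i j k K p hX hτ hg hij hik hjk hK hp hV hW hF
  have hall : ∀ i j k : Fin 3, i ≠ j → i ≠ k → j ≠ k →
      (j = i + 1 ∧ k = i + 2) ∨ (j = i + 2 ∧ k = i + 1) := by decide
  have hcase := hall i j k hij hik hjk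
  rcases hcase with ⟨rfl, rfl⟩ | ⟨rfl, rfl⟩
  · exact hc X τ g V W F i K p hX hτ hg hK hp hV hW hF
  · have h := hc X τ g W V F i K p hX hτ hg hK hp hW hV hF
    refine h.trans (le_of_eq ?_)
    congr 2
    ring

end Pool.BL
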